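import Mathlib
import Pool.Agent.Lib.MP_4a0204_co.Main

set_option autoImplicit false

/-!
Covering a disc with a small hole by planks: the question of A. Bezdek has an affirmative answer.
-/

namespace Pool.Agent.Results.MP_4a0204_co.PlankAnnulus

open Pool.Agent.Lib.MP_4a0204_co

/-- The closed region between the two parallel lines `⟨u, x⟩ = α` and `⟨u, x⟩ = β`.  For a unit
vector `u` and `α < β` it is a plank of width `β - α`. -/
def plank (u : EuclideanSpace ℝ (Fin 2)) (α β : ℝ) : Set (EuclideanSpace ℝ (Fin 2)) :=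
  {x | α ≤ inner ℝ u x ∧ inner ℝ u x ≤ β}

theorem inner2 (x y : EuclideanSpace ℝ (Fin 2)) : inner ℝ x y = x 0 * y 0 + x 1 * y 1 := by
  rw [PiLp.inner_apply, Fin.sum_univ_two]
  simp only [RCLike.inner_apply, conj_trivial]
  ring

theorem normsq2 (x : EuclideanSpace ℝ (Fin 2)) : ‖x‖ ^ 2 = x 0 ^ 2 + x 1 ^ 2 := by
  rw [← real_inner_self_eq_norm_sq, inner2]; ring

theorem mem_ball2 (x o : EuclideanSpace ℝ (Fin 2)) (r : ℝ) (hr : 0 ≤ r) :
    x ∈ Metric.closedBall o r ↔ (x 0 - o 0) ^ 2 + (x 1 - o 1) ^ 2 ≤ r ^ 2 := by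
  rw [mem_closedBall_iff_norm, ← sq_le_sq₀ (norm_nonneg _) hr, normsq2]
  simp

/-- There is a unit vector in the direction from `o` to `c`. -/
theorem exists_dir (o c : EuclideanSpace ℝ (Fin 2)) :
    ∃ (v0 v1 r : ℝ), v0 ^ 2 + v1 ^ 2 = 1 ∧ 0 ≤ r ∧ c 0 = o 0 + r * v0 ∧ c 1 = o 1 + r * v1 := by
  by_cases h : (c 0 - o 0) ^ 2 + (c 1 - o 1) ^ 2 = 0
  · have h0 : (c 0 - o 0) ^ 2 = 0 := by nlinarith [sq_nonneg (c 0 - o 0), sq_nonneg (c 1 - o 1)]
    have h1 : (c 1 - o 1) ^ 2 = 0 := by nlinarith [sq_nonneg (c 0 - o 0), sq_nonneg (c 1 - o 1)]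
    have h0' := pow_eq_zero_iff (two_ne_zero) |>.mp h0
    have h1' := pow_eq_zero_iff (two_ne_zero) |>.mp h1
    exact ⟨1, 0, 0, by norm_num, le_rfl, by linarith, by linarith⟩
  · have hpos : 0 < (c 0 - o 0) ^ 2 + (c 1 - o 1) ^ 2 :=
      lt_of_le_of_ne (by positivity) (Ne.symm h)
    set r := √((c 0 - o 0) ^ 2 + (c 1 - o 1) ^ 2) with hr
    have hr0 : 0 < r := Real.sqrt_pos.mpr hpos
    have hr2 : r ^ 2 = (c 0 - o 0) ^ 2 + (c 1 - o 1) ^ 2 := Real.sq_sqrt hpos.le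
    refine ⟨(c 0 - o 0) / r, (c 1 - o 1) / r, r, ?_, hr0.le, ?_, ?_⟩
    · rw [div_pow, div_pow, ← add_div, ← hr2, div_self (by positivity)]
    · field_simp; ring
    · field_simp; ring

/-- The case of a hole of radius exactly `eps`, with the position of its centre made explicit. -/
theorem exact {n : ℕ} (o : EuclideanSpace ℝ (Fin 2)) (v0 v1 r : ℝ) (hv : v0 ^ 2 + v1 ^ 2 = 1)
    (hr : 0 ≤ r) (hr1 : r + eps < 1) (u : Fin n → EuclideanSpace ℝ (Fin 2)) (α β : Fin n → ℝ)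
    (hu : ∀ i, ‖u i‖ = 1) (hαβ : ∀ i, α i < β i)
    (hcov : ∀ x : EuclideanSpace ℝ (Fin 2), (x 0 - o 0) ^ 2 + (x 1 - o 1) ^ 2 ≤ 1 →
      ¬ (x 0 - (o 0 + r * v0)) ^ 2 + (x 1 - (o 1 + r * v1)) ^ 2 ≤ eps ^ 2 →
      ∃ i, x ∈ plank (u i) (α i) (β i)) :
    2 ≤ ∑ i, (β i - α i) := by
  set F : Fin n → Strip := fun i =>
    ⟨-(u i 0 * v0 + u i 1 * v1), -(u i 0 * v1) + u i 1 * v0,
      α i - (u i 0 * o 0 + u i 1 * o 1) - (u i 0 * v0 + u i 1 * v1),
      β i - (u i 0 * o 0 + u i 1 * o 1) - (u i 0 * v0 + u i 1 * v1)⟩ with hF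
  have h := core F (by
    intro i
    have h1 := normsq2 (u i)
    rw [hu i] at h1
    simp only [hF]
    have : (-(u i 0 * v0 + u i 1 * v1)) ^ 2 + (-(u i 0 * v1) + u i 1 * v0) ^ 2
        = (u i 0 ^ 2 + u i 1 ^ 2) * (v0 ^ 2 + v1 ^ 2) := by ring
    rw [this, hv, ← h1]; norm_num) (by
    intro i
    simp only [hF]
    linarith [hαβ i]) (d := 1 - r) (by linarith) (by linarith) (by
    intro p hp hpH
    set x : EuclideanSpace ℝ (Fin 2) :=
      !₂[o 0 + (1 - p.1) * v0 - p.2 * v1, o 1 + (1 - p.1) * v1 + p.2 * v0] with hx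
    have hx0 : x 0 = o 0 + (1 - p.1) * v0 - p.2 * v1 := by simp [hx]
    have hx1 : x 1 = o 1 + (1 - p.1) * v1 + p.2 * v0 := by simp [hx]
    obtain ⟨i, hi⟩ := hcov x (by
      rw [hx0, hx1]
      have : (o 0 + (1 - p.1) * v0 - p.2 * v1 - o 0) ^ 2
          + (o 1 + (1 - p.1) * v1 + p.2 * v0 - o 1) ^ 2
          = ((p.1 - 1) ^ 2 + p.2 ^ 2) * (v0 ^ 2 + v1 ^ 2) := by ring
      rw [this, hv, mul_one]; exact hp) (by
      intro h2
      apply hpH
      rw [hx0, hx1] at h2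
      have : (o 0 + (1 - p.1) * v0 - p.2 * v1 - (o 0 + r * v0)) ^ 2
          + (o 1 + (1 - p.1) * v1 + p.2 * v0 - (o 1 + r * v1)) ^ 2
          = ((p.1 - (1 - r)) ^ 2 + p.2 ^ 2) * (v0 ^ 2 + v1 ^ 2) := by ring
      rw [this, hv, mul_one] at h2
      exact h2)
    refine ⟨i, ?_⟩
    have h3 : α i ≤ inner ℝ (u i) x ∧ inner ℝ (u i) x ≤ β i := hi
    rw [inner2, hx0, hx1] at h3
    rw [Strip.mem_set]
    simp only [hF, Strip.form]
    constructor <;> linarith [h3.1, h3.2])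
  refine h.trans (le_of_eq ?_)
  apply Finset.sum_congr rfl
  intro i _
  simp only [hF]; ring

/-- There is `ε₀ > 0` such that, for every `ε` with `0 < ε ≤ ε₀`, if a closed disc of radius `ε`
lies in the interior of a closed disc of radius one and finitely many planks cover the difference of
the two discs, then the sum of the widths of the planks is at least two. -/
theorem result : ∃ ε₀ : ℝ, 0 < ε₀ ∧ ε₀ < 1 ∧ ∀ ε : ℝ, 0 < ε → ε ≤ ε₀ →
    ∀ o c : EuclideanSpace ℝ (Fin 2),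
      Metric.closedBall c ε ⊆ interior (Metric.closedBall o 1) →
      ∀ (n : ℕ) (u : Fin n → EuclideanSpace ℝ (Fin 2)) (α β : Fin n → ℝ),
        (∀ i, ‖u i‖ = 1) → (∀ i, α i < β i) →
        Metric.closedBall o 1 \ Metric.closedBall c ε ⊆ ⋃ i, plank (u i) (α i) (β i) →
        2 ≤ ∑ i, (β i - α i) := by
  refine ⟨eps, eps_pos, ?_, ?_⟩
  · have h1 := eps_small
    have h2 : (1 : ℝ) / 10 ^ 50 < 1 := by norm_num
    linarith
  · intro ε hε hεe o c hball n u α β hu hαβ hcov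
    obtain ⟨v0, v1, r, hv, hr, hc0, hc1⟩ := exists_dir o c
    -- the position of the hole
    have hrε : r + ε < 1 := by
      set x : EuclideanSpace ℝ (Fin 2) := !₂[o 0 + (r + ε) * v0, o 1 + (r + ε) * v1] with hx
      have hx0 : x 0 = o 0 + (r + ε) * v0 := by simp [hx]
      have hx1 : x 1 = o 1 + (r + ε) * v1 := by simp [hx]
      have h1 : x ∈ Metric.closedBall c ε := by
        rw [mem_ball2 _ _ _ hε.le, hx0, hx1, hc0, hc1]
        have : (o 0 + (r + ε) * v0 - (o 0 + r * v0)) ^ 2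
            + (o 1 + (r + ε) * v1 - (o 1 + r * v1)) ^ 2 = ε ^ 2 * (v0 ^ 2 + v1 ^ 2) := by ring
        rw [this, hv, mul_one]
      have h2 := hball h1
      rw [interior_closedBall _ one_ne_zero, mem_ball_iff_norm] at h2
      have h3 : ‖x - o‖ ^ 2 < 1 := by nlinarith [norm_nonneg (x - o)]
      rw [normsq2] at h3
      have h4 : (x - o) 0 = (r + ε) * v0 := by
        simp only [PiLp.sub_apply]; rw [hx0]; ring
      have h5 : (x - o) 1 = (r + ε) * v1 := by
        simp only [PiLp.sub_apply]; rw [hx1]; ring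
      rw [h4, h5] at h3
      have h6 : ((r + ε) * v0) ^ 2 + ((r + ε) * v1) ^ 2 = (r + ε) ^ 2 * (v0 ^ 2 + v1 ^ 2) := by ring
      rw [h6, hv, mul_one] at h3
      nlinarith
    -- a hole of radius `eps` containing the given one
    obtain ⟨r', hr'0, hr'1, hr'2, hr'3⟩ : ∃ r' : ℝ, 0 ≤ r' ∧ r' + eps < 1 ∧ r' ≤ r ∧
        r - r' ≤ eps - ε := by
      have h1 := eps_small
      have h2 : (1 : ℝ) / 10 ^ 50 < 1 := by norm_num
      rcases le_total r (eps - ε) with h | h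
      · exact ⟨0, le_rfl, by linarith, hr, by linarith⟩
      · exact ⟨r - (eps - ε), by linarith, by linarith, by linarith, by linarith⟩
    apply exact o v0 v1 r' hv hr'0 hr'1 u α β hu hαβ
    intro x hx hxn
    have h1 : x ∈ Metric.closedBall o 1 := by
      rw [mem_ball2 _ _ _ zero_le_one, one_pow]; exact hx
    have h2 : x ∉ Metric.closedBall c ε := by
      intro h3
      apply hxn
      rw [mem_ball2 _ _ _ hε.le, hc0, hc1] at h3
      -- triangle inequality in coordinates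
      set a := x 0 - (o 0 + r * v0)
      set b := x 1 - (o 1 + r * v1)
      have e0 : x 0 - (o 0 + r' * v0) = a + (r - r') * v0 := by simp only [a]; ring
      have e1 : x 1 - (o 1 + r' * v1) = b + (r - r') * v1 := by simp only [b]; ring
      rw [e0, e1]
      have hs0 : 0 ≤ r - r' := by linarith
      have hcs : a * v0 + b * v1 ≤ ε := by
        apply le_of_sq_le_sq _ hε.le
        nlinarith [sq_nonneg (a * v1 - b * v0)]
      have e2 : (a + (r - r') * v0) ^ 2 + (b + (r - r') * v1) ^ 2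
          = (a ^ 2 + b ^ 2) + 2 * (r - r') * (a * v0 + b * v1)
            + (r - r') ^ 2 * (v0 ^ 2 + v1 ^ 2) := by ring
      rw [e2, hv, mul_one]
      have h4 : 2 * (r - r') * (a * v0 + b * v1) ≤ 2 * (r - r') * ε :=
        mul_le_mul_of_nonneg_left hcs (by linarith)
      have h5 : (ε + (r - r')) ^ 2 ≤ eps ^ 2 := pow_le_pow_left₀ (by linarith) (by linarith) 2
      nlinarith
    have h3 := hcov ⟨h1, h2⟩
    rw [Set.mem_iUnion] at h3
    exact h3

end Pool.Agent.Results.MP_4a0204_co.PlankAnnulus
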